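import Pool.Agent.helper55.RI.Spec

/-!
# Project ri (MP_2bd605_lc), module K3: pre and its inverse in polynomial time
-/

set_option autoImplicit false

namespace Pool.Agent.RI

open Pool.Agent.helper62 Prog Function Pool.Agent.helper81.PL

private theorem K3_inj : ∀ (a b : ℕ) (x y : W), pre a x = pre b y → a = b ∧ x = y := by
  intro a
  induction a with
  | zero =>
    intro b x y h
    cases b with
    | zero =>
      unfold pre at h
      simp only [List.replicate_zero, List.nil_append, List.cons.injEq, true_and] at h
      exact ⟨rfl, h⟩
    | succ b =>
      unfold pre at h
      rw [List.replicate_zero, List.nil_append, List.replicate_succ, List.cons_append] at h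
      simp at h
  | succ a ih =>
    intro b x y h
    cases b with
    | zero =>
      unfold pre at h
      rw [List.replicate_zero, List.nil_append, List.replicate_succ, List.cons_append] at h
      simp at h
    | succ b =>
      have h' : pre a x = pre b y := by
        unfold pre at h ⊢
        rw [List.replicate_succ, List.cons_append, List.replicate_succ, List.cons_append] at h
        simpa using h
      obtain ⟨h1, h2⟩ := ih b x y h'
      exact ⟨by rw [h1], h2⟩

private theorem K3_inN (a : ℕ) (x : W) : inN (pre a x) = a := by
  unfold inN
  have h : (List.range (pre a x).length).find? (fun i => !((pre a x).getD i false)) = some a := by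
    rw [List.find?_range_eq_some]
    refine ⟨?_, ?_, ?_⟩
    · simp [pre, List.getD_eq_getElem?_getD]
    · simp [pre]
    · intro j hj
      simp [pre, List.getD_eq_getElem?_getD, List.getElem?_append_left, hj]
  rw [h]
  rfl

theorem K3 : K3_stmt := by
  refine ⟨?_, K3_inj, ?_, fun w => w.drop (inN w + 1), ?_, ?_⟩
  · unfold pre
    fun_prop
  · intro a x
    simp [pre]
    omega
  · have h : PT inN := INW1
    fun_prop
  · intro a x
    change (pre a x).drop (inN (pre a x) + 1) = x
    rw [K3_inN]
    have e : pre a x = (List.replicate a true ++ [false]) ++ x := by
      simp [pre]
    rw [e]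
    exact List.drop_left' (by simp)

end Pool.Agent.RI
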