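import Pool.Agent.helper55.RI.Spec

/-!
# Project ri (MP_2bd605_lc), module R4: bounded searches are computable
-/

set_option autoImplicit false

namespace Pool.Agent.RI

open Pool.Agent.helper62 Prog Function Pool.Agent.helper81.PL

private theorem R4_step (q : ℕ → Bool) (n : ℕ) : (List.range (n + 1)).find? q =
    Option.casesOn ((List.range n).find? q) (bif q n then some n else none) (fun v => some v) := by
  rw [List.range_succ, List.find?_append]
  cases h : (List.range n).find? q with
  | none =>
    cases hq : q n <;> simp [hq]
  | some v => simp

private theorem R4_rec (q : ℕ → Bool) (n : ℕ) : (List.range n).find? q =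
    Nat.rec (none : Option ℕ) (fun m (s : Option ℕ) =>
      Option.casesOn s (bif q m then some m else none) (fun v => some v)) n := by
  induction n with
  | zero => rfl
  | succ n ih =>
    rw [R4_step, ih]

theorem R4 : R4_stmt := by
  intro α _ p g hp hg
  have h1 : Computable (fun a : α => (Nat.rec (none : Option ℕ) (fun m (s : Option ℕ) =>
      Option.casesOn s (bif p a m then some m else none) (fun v => some v)) (g a) : Option ℕ)) := by
    refine Computable.nat_rec (h := fun a (x : ℕ × Option ℕ) =>
      (Option.casesOn x.2 (bif p a x.1 then some x.1 else none) (fun v => some v) : Option ℕ))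
      hg (Computable.const none) ?_
    have h2 : Computable (fun y : α × (ℕ × Option ℕ) => p y.1 y.2.1) :=
      hp.comp (Computable.pair Computable.fst (Computable.fst.comp Computable.snd))
    have h3 : Computable (fun y : α × (ℕ × Option ℕ) =>
        (bif p y.1 y.2.1 then some y.2.1 else none : Option ℕ)) :=
      Computable.cond h2 (Computable.option_some.comp (Computable.fst.comp Computable.snd))
        (Computable.const none)
    exact Computable.option_casesOn (Computable.snd.comp Computable.snd) h3
      (Computable.option_some.comp Computable.snd)
  have h4 : Computable (fun a : α => (List.range (g a)).find? (p a)) :=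
    h1.of_eq fun a => (R4_rec (p a) (g a)).symm
  exact Computable.option_getD h4 (Computable.const 0)

end Pool.Agent.RI
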